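import Pool.Agent.K3h66.KE.Main

/-!
Question 2 of MP_de689f_co: for a natural number `c`, any two `(k+c)`-colourings of any
`k`-colourable graph of independence number at most two are Kempe equivalent (for all `k ≥ 1`) if and
only if `c ≥ 1`.

`KempeStep α β` (from `Pool.Agent.H411R2.WSK.Defs`): the colouring `β` arises from `α` by a single
Kempe change. `IsEmpty ((⊥ : SimpleGraph (Fin 3)) ↪g G)` says that `G` is `3K₁`-free.
-/

set_option autoImplicit false

namespace Pool.Agent.K3h66.Withdrawn.ThreeKOneFree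

open Pool.Agent.H411R2.WSK

theorem free_of_isEmpty {V : Type} {G : SimpleGraph V}
    (h : IsEmpty ((⊥ : SimpleGraph (Fin 3)) ↪g G)) :
    ∀ x y z : V, x ≠ y → y ≠ z → x ≠ z → G.Adj x y ∨ G.Adj y z ∨ G.Adj x z := by
  intro x y z hxy hyz hxz
  by_contra hcon
  push Not at hcon
  obtain ⟨h1, h2, h3⟩ := hcon
  have h1' : ¬ G.Adj y x := fun h => h1 h.symm
  have h2' : ¬ G.Adj z y := fun h => h2 h.symm
  have h3' : ¬ G.Adj z x := fun h => h3 h.symm
  have hn : ∀ i j : Fin 3, ¬ G.Adj (![x, y, z] i) (![x, y, z] j) := by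
    intro i j
    fin_cases i <;> fin_cases j <;> simp [h1, h2, h3, h1', h2', h3']
  have hinj : Function.Injective ![x, y, z] := by
    intro i j hij
    fin_cases i <;> fin_cases j <;> simp_all
  refine h.false ⟨⟨![x, y, z], hinj⟩, ?_⟩
  intro i j
  constructor
  · intro h'
    exact absurd h' (hn i j)
  · intro h'
    simp at h'

/-- the prism (complement of the hexagon) -/
abbrev P : SimpleGraph (Fin 6) := (SimpleGraph.cycleGraph 6)ᶜ

instance : DecidableRel P.Adj := fun _ _ => inferInstance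

theorem P_adj : ∀ i j : Fin 6, P.Adj i j ↔ (i ≠ j ∧ i ≠ j + 1 ∧ j ≠ i + 1) := by decide

theorem inv_step (α β : P.Coloring (Fin 3)) (h : KempeStep α β) (h0 : α 0 = α 1) : β 0 = β 1 := by
  obtain ⟨a, b, hab, U, hU, hs⟩ := h.closed
  have A : ∀ i j : Fin 6, (i ≠ j ∧ i ≠ j + 1 ∧ j ≠ i + 1) → α i ≠ α j :=
    fun i j hij => α.valid ((P_adj i j).2 hij)
  have A02 := A 0 2 (by decide)
  have A03 := A 0 3 (by decide)
  have A04 := A 0 4 (by decide)
  have A13 := A 1 3 (by decide)
  have A14 := A 1 4 (by decide)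
  have A15 := A 1 5 (by decide)
  have A24 := A 2 4 (by decide)
  have A25 := A 2 5 (by decide)
  have A35 := A 3 5 (by decide)
  by_cases hc : α 0 = a ∨ α 0 = b
  · have key : ∃ w : Fin 6, P.Adj 0 w ∧ P.Adj 1 w ∧ (α w = a ∨ α w = b) := by
      by_cases h3 : α 3 = a ∨ α 3 = b
      · exact ⟨3, by decide, by decide, h3⟩
      · refine ⟨4, by decide, by decide, ?_⟩
        generalize α 0 = c0 at *
        generalize α 1 = c1 at *
        generalize α 2 = c2 at *
        generalize α 3 = c3 at *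
        generalize α 4 = c4 at *
        generalize α 5 = c5 at *
        clear hU hs
        subst h0
        revert a b c0 c2 c3 c4 c5
        decide
    obtain ⟨w, hw0, hw1, hw⟩ := key
    have hc1 : α 1 = a ∨ α 1 = b := h0 ▸ hc
    have hiff : (0 : Fin 6) ∈ U ↔ (1 : Fin 6) ∈ U := by
      constructor
      · intro h
        exact hU.2 w (hU.2 0 h w hw0 hw) 1 hw1.symm hc1
      · intro h
        exact hU.2 w (hU.2 1 h w hw1 hw) 0 hw0.symm hc
    by_cases h : (0 : Fin 6) ∈ U
    · rw [hs.1 0 h, hs.1 1 (hiff.1 h), h0]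
    · rw [hs.2 0 h, hs.2 1 (fun h' => h (hiff.2 h')), h0]
  · have h0' : (0 : Fin 6) ∉ U := fun h => hc (hU.1 0 h)
    have h1' : (1 : Fin 6) ∉ U := fun h => hc (h0 ▸ hU.1 1 h)
    rw [hs.2 0 h0', hs.2 1 h1', h0]

theorem result : ∀ c : ℕ,
    (∀ (V : Type) [Finite V] (G : SimpleGraph V), IsEmpty ((⊥ : SimpleGraph (Fin 3)) ↪g G) →
      ∀ k : ℕ, 1 ≤ k → G.Colorable k →
        ∀ α β : G.Coloring (Fin (k + c)), Relation.ReflTransGen KempeStep α β) ↔ 1 ≤ c := by
  intro c
  constructor
  · intro h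
    by_contra hc
    have hc0 : c = 0 := by omega
    subst hc0
    let α : P.Coloring (Fin 3) := SimpleGraph.Coloring.mk ![0, 0, 1, 1, 2, 2] (by decide)
    let β : P.Coloring (Fin 3) := SimpleGraph.Coloring.mk ![0, 1, 1, 2, 2, 0] (by decide)
    have hfree : IsEmpty ((⊥ : SimpleGraph (Fin 3)) ↪g P) := by
      refine ⟨fun f => ?_⟩
      have hd : ∀ x y z : Fin 6, x ≠ y → y ≠ z → x ≠ z → P.Adj x y ∨ P.Adj y z ∨ P.Adj x z := by
        decide
      have hn : ∀ i j : Fin 3, ¬ P.Adj (f i) (f j) := by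
        intro i j hij
        have := f.map_adj_iff.1 hij
        simp at this
      rcases hd (f 0) (f 1) (f 2) (fun h => absurd (f.injective h) (by decide))
        (fun h => absurd (f.injective h) (by decide)) (fun h => absurd (f.injective h) (by decide))
        with h | h | h
      · exact hn _ _ h
      · exact hn _ _ h
      · exact hn _ _ h
    have hr := h (Fin 6) P hfree 3 (by norm_num) ⟨α⟩ α β
    have hinv : ∀ γ δ : P.Coloring (Fin 3), Relation.ReflTransGen KempeStep γ δ →
        γ 0 = γ 1 → δ 0 = δ 1 := by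
      intro γ δ hγ h0
      induction hγ with
      | refl => exact h0
      | tail _ hstep ih => exact inv_step _ _ hstep ih
    have := hinv α β hr rfl
    exact absurd this (by decide)
  · intro hc V _ G hG k hk hcol α β
    classical
    have : Fintype V := Fintype.ofFinite V
    obtain ⟨d, rfl⟩ : ∃ d, c = d + 1 := ⟨c - 1, by omega⟩
    obtain ⟨g⟩ := hcol.mono (Nat.le_add_right k d)
    have hmain := Pool.Agent.K3h66.KE.main (G := G) (q := k + (d + 1)) (free_of_isEmpty hG)
      (g := fun v => (g v).castSucc) (fun v w hvw h => g.valid hvw (Fin.castSucc_injective _ h))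
      (Fin.last (k + d)) (fun v => (Fin.castSucc_lt_last _).ne)
    exact hmain α β

end Pool.Agent.K3h66.Withdrawn.ThreeKOneFree
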